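import Pool.Agent.Helper54.PH.Final

/-!
# A holomorphic partially hyperbolic diffeomorphism with non-holomorphic center

`M` is the universal abelian surface with quaternionic multiplication over a compact Shimura
curve: the quotient of `H × ℂ²` by the translations by the order `O = ℤ⟨i, j⟩`, `i² = -1`,
`j² = 3`, and the level 3 congruence subgroup of the norm one units of `O`.  The map `f` is the
fibrewise multiplication by the unit `2 + j`, which has eigenvalues `2 ± √3` on the fibres.  The
center distribution is the flat (Gauss-Manin) horizontal distribution, spanned at `(t, z)` by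
`∂_t + (Im z₁ / Im t) ∂_1 + (Im z₂ / Im t) ∂_2`: it is invariant under the complex structure, but
not holomorphic.
-/

set_option autoImplicit false

open scoped Manifold ContDiff

namespace Pool.Agent.Results.MP_4c19c5_an.CenterNotHolomorphic

open Pool.Agent.Helper54.PH

/-- There is a compact connected Kaehler manifold `M` (of complex dimension 3) and a holomorphic
diffeomorphism `f` of `M` with a partially hyperbolic splitting `TM = Es ⊕ Ec ⊕ Eu` whose center
distribution `Ec` is not holomorphic. -/
theorem result :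
    ∃ (M : Type) (_ : TopologicalSpace M) (_ : ChartedSpace (ℂ × ℂ × ℂ) M)
      (_ : IsManifold 𝓘(ℂ, ℂ × ℂ × ℂ) ω M),
      CompactSpace M ∧ T2Space M ∧ ConnectedSpace M ∧
      (∃ h : ∀ x : M, TangentSpace 𝓘(ℂ, ℂ × ℂ × ℂ) x → TangentSpace 𝓘(ℂ, ℂ × ℂ × ℂ) x → ℂ,
        IsKaehlerMetric h) ∧
      ∃ (f : M ≃ₘ^ω⟮𝓘(ℂ, ℂ × ℂ × ℂ), 𝓘(ℂ, ℂ × ℂ × ℂ)⟯ M)
        (Es Ec Eu : ∀ x : M, Submodule ℂ (TangentSpace 𝓘(ℂ, ℂ × ℂ × ℂ) x)),
        IsPartiallyHyperbolicSplitting (f : M → M) Es Ec Eu ∧ ¬ IsHolomorphicDistribution Ec :=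
  ⟨MM, inferInstance, inferInstance, coverData.isManifold, inferInstance, inferInstance,
    inferInstance, ⟨_, kaehler⟩, ff, _, _, _, partially_hyperbolic, not_holomorphic⟩

end Pool.Agent.Results.MP_4c19c5_an.CenterNotHolomorphic
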